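import Pool.Agent.Race103.Basic

open MeasureTheory Set Pool.Agent.Race103

namespace Pool.Agent.Results.MP_e3f87b_pr.FactorPair

/-- If one pattern is a contiguous factor of the other, there is no sign change. -/
theorem result (A B : List Bool) (h : A <:+: B ∨ B <:+: A) (m : ℕ)
    (hm : SignChanges (adv A B) m) : m = 0 := by
  rcases h with h | h
  · exact none_of_nonneg (factor_left h) hm
  · exact none_of_nonpos (factor_right h) hm

end Pool.Agent.Results.MP_e3f87b_pr.FactorPair
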