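import Pool.Agent.Race103.Basic

open MeasureTheory Set Pool.Agent.Race103

namespace Pool.Agent.Results.MP_e3f87b_pr.OppositeRuns

/-- A run of heads against a run of tails: exactly one sign change, for all lengths. -/
theorem result (a b : ℕ) (ha : 1 ≤ a) (hb : 1 ≤ b) :
    IsGreatest {m | SignChanges (adv (List.replicate a true) (List.replicate b false)) m} 1 :=
  ⟨one_change ha hb, fun _ hm => no_two_of_mono (runs_mono a b) hm⟩

end Pool.Agent.Results.MP_e3f87b_pr.OppositeRuns
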