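import Pool.Agent.Race103.Basic

open MeasureTheory Set Pool.Agent.Race103

namespace Pool.Agent.Results.MP_e3f87b_pr.ShortPattern

/-- Q2 for the length pairs `(1, L)` and `(L, 1)`: the largest number of sign changes is `1`. -/
theorem result (L₁ L₂ : ℕ) (h1 : 1 ≤ L₁) (h2 : 1 ≤ L₂) (h : L₁ = 1 ∨ L₂ = 1) :
    IsGreatest {m | ∃ A B : List Bool, A.length = L₁ ∧ B.length = L₂ ∧
      (∃ p, 0 < p ∧ p < 1 ∧ adv A B p ≠ 0) ∧ SignChanges (adv A B) m} 1 := by
  refine ⟨⟨List.replicate L₁ true, List.replicate L₂ false, by simp, by simp, ?_,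
    one_change h1 h2⟩, ?_⟩
  · have hb0 : (1 : ℝ) ≤ L₂ := by exact_mod_cast h2
    have h3 : 0 < 1 / (8 * (L₂ : ℝ)) := by positivity
    have h4 : 1 / (8 * (L₂ : ℝ)) ≤ 1 / 8 := by
      apply one_div_le_one_div_of_le <;> linarith
    exact ⟨1 / (8 * (L₂ : ℝ)), h3, by linarith, (adv_neg h1 h2).ne⟩
  · rintro m ⟨A, B, hA, hB, -, hm⟩
    rcases h with h | h
    · exact length_one_left (hA.trans h) hm
    · exact length_one_right (hB.trans h) hm

end Pool.Agent.Results.MP_e3f87b_pr.ShortPattern
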